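import Pool.Agent.H73.G.R8.TH21.MS.JDer
import Pool.Agent.H73.G.R8.Y226.ZP.Tate
import Pool.Agent.H73.G.RB.Q280.MS.Pts

/-!
# Derivatives of the modular invariant: reflection, isogenies
-/

set_option autoImplicit false

open Matroid Set  Filter Topology UpperHalfPlane ModularForm

namespace Pool.Agent.Q280.MD

open Pool.Agent.TH21.MS (jj jj_an E4 E6 E4_eq E6_eq disc_ne)

theorem jj_eq (τ : ℍ) : jj τ = H294ZP.jj τ := by
  unfold jj H294ZP.jj
  rw [E4_eq, E6_eq, discriminant_eq_E₄_cube_sub_E₆_sq τ]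
  have h := disc_ne τ
  rw [E4_eq, E6_eq] at h
  field_simp

/-! ### Linear fractional maps -/


end Pool.Agent.Q280.MD
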