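import Pool.Agent.H73.G.R8.TH21.MS.JDer

/-!
# The derivative of the modular invariant
-/

set_option autoImplicit false

open Filter Topology UpperHalfPlane ModularForm EisensteinSeries CongruenceSubgroup MatrixGroups
open scoped Manifold Derivative

namespace Pool.Agent.Q280.MD

open Pool.Agent.TH21.MS

noncomputable def F4 : ℍ → ℂ := fun z => E₄ z

noncomputable def F6 : ℍ → ℂ := fun z => E₆ z

theorem F4_mdiff : MDiff F4 := E₄.holo'

theorem F6_mdiff : MDiff F6 := E₆.holo'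

theorem F4_slash (γ : SL(2, ℤ)) : F4 ∣[(4 : ℤ)] γ = F4 := E₄.slash_action_eq' _ ⟨γ, rfl⟩

theorem F6_slash (γ : SL(2, ℤ)) : F6 ∣[(6 : ℤ)] γ = F6 := E₆.slash_action_eq' _ ⟨γ, rfl⟩

/-- the bracket of `E₄` and `E₆` -/
noncomputable def W : ℍ → ℂ := fun z => 2 * F4 z * D F6 z - 3 * F6 z * D F4 z

theorem W_eq : W = (2 : ℂ) • (F4 * Derivative.serreDerivative 6 F6) -
    (3 : ℂ) • (F6 * Derivative.serreDerivative 4 F4) := by
  ext z
  simp only [W, Pi.sub_apply, Pi.smul_apply, Pi.mul_apply, smul_eq_mul, Derivative.serreDerivative_apply]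
  ring

theorem W_slash (γ : SL(2, ℤ)) : W ∣[(12 : ℤ)] γ = W := by
  have h6 : Derivative.serreDerivative ((6 : ℤ) : ℂ) F6 ∣[(6 : ℤ) + 2] γ =
      Derivative.serreDerivative ((6 : ℤ) : ℂ) F6 :=
    Derivative.serreDerivative_slash_invariant F6_mdiff (F6_slash γ)
  have h4 : Derivative.serreDerivative ((4 : ℤ) : ℂ) F4 ∣[(4 : ℤ) + 2] γ =
      Derivative.serreDerivative ((4 : ℤ) : ℂ) F4 :=
    Derivative.serreDerivative_slash_invariant F4_mdiff (F4_slash γ)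
  have e1 := ModularForm.mul_slash_SL2 4 (6 + 2) γ F4 (Derivative.serreDerivative ((6 : ℤ) : ℂ) F6)
  have e2 := ModularForm.mul_slash_SL2 6 (4 + 2) γ F6 (Derivative.serreDerivative ((4 : ℤ) : ℂ) F4)
  rw [h6, F4_slash] at e1
  rw [h4, F6_slash] at e2
  have c6 : ((6 : ℤ) : ℂ) = 6 := by norm_num
  have c4 : ((4 : ℤ) : ℂ) = 4 := by norm_num
  rw [c6] at e1
  rw [c4] at e2
  have e1' : (F4 * Derivative.serreDerivative 6 F6) ∣[(12 : ℤ)] γ = F4 * Derivative.serreDerivative 6 F6 := e1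
  have e2' : (F6 * Derivative.serreDerivative 4 F4) ∣[(12 : ℤ)] γ = F6 * Derivative.serreDerivative 4 F4 := e2
  rw [W_eq, sub_eq_add_neg, SlashAction.add_slash, SlashAction.neg_slash, ModularForm.SL_smul_slash,
    ModularForm.SL_smul_slash, e1', e2']

theorem W_mdiff : MDiff W := by
  rw [W_eq]
  exact ((F4_mdiff.mul (Derivative.serreDerivative_mdifferentiable 6 F6_mdiff)).const_smul 2).sub
    ((F6_mdiff.mul (Derivative.serreDerivative_mdifferentiable 4 F4_mdiff)).const_smul 3)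

/-! ### Behaviour at infinity -/

/-- `exp (2 π i τ)` -/
noncomputable def qe (τ : ℂ) : ℂ := Complex.exp (2 * (Real.pi : ℂ) * Complex.I * τ)

theorem qe_norm (τ : ℂ) : ‖qe τ‖ = Real.exp (-(2 * Real.pi * τ.im)) := by
  unfold qe
  rw [Complex.norm_exp]
  congr 1
  simp [Complex.mul_re, Complex.mul_im]

theorem qe_ball {τ : ℂ} (hτ : 0 < τ.im) : qe τ ∈ Metric.ball (0 : ℂ) 1 := by
  rw [mem_ball_zero_iff, qe_norm, Real.exp_lt_one_iff]
  have := Real.pi_pos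
  have : 0 < 2 * Real.pi * τ.im := by positivity
  linarith

theorem qe_tendsto : Tendsto (fun z : ℍ => qe z) atImInfty (𝓝 0) := by
  rw [tendsto_zero_iff_norm_tendsto_zero]
  simp only [qe_norm]
  have h1 : Tendsto (fun z : ℍ => 2 * Real.pi * (z : ℂ).im) atImInfty atTop := by
    refine Tendsto.const_mul_atTop (by positivity) ?_
    exact tendsto_comap
  exact Real.tendsto_exp_neg_atTop_nhds_zero.comp h1

theorem qe_deriv (τ : ℂ) : HasDerivAt qe (2 * (Real.pi : ℂ) * Complex.I * qe τ) τ := by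
  have h1 : HasDerivAt (fun τ : ℂ => 2 * (Real.pi : ℂ) * Complex.I * τ) (2 * (Real.pi : ℂ) * Complex.I) τ := by
    simpa using (hasDerivAt_id τ).const_mul (2 * (Real.pi : ℂ) * Complex.I)
  exact h1.cexp.congr_deriv (by unfold qe; ring)

/-- `x A(x)` -/
theorem K_deriv {A : ℂ → ℂ} (hA : AnalyticOnNhd ℂ A (Metric.ball 0 1)) {τ : ℂ} (hτ : 0 < τ.im) :
    HasDerivAt (fun τ => qe τ * A (qe τ))
      ((A (qe τ) + qe τ * deriv A (qe τ)) * (2 * (Real.pi : ℂ) * Complex.I * qe τ)) τ := by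
  have h1 : HasDerivAt A (deriv A (qe τ)) (qe τ) := (hA _ (qe_ball hτ)).differentiableAt.hasDerivAt
  have h2 := (qe_deriv τ).mul (h1.comp τ (qe_deriv τ))
  refine h2.congr_deriv ?_
  simp only [Function.comp]
  ring

theorem E4_deriv {τ : ℂ} (hτ : 0 < τ.im) : HasDerivAt E4
    (240 * ((A3 ℂ (qe τ) + qe τ * deriv (A3 ℂ) (qe τ)) * (2 * (Real.pi : ℂ) * Complex.I * qe τ))) τ := by
  have h1 : E4 = fun τ => 1 + 240 * (qe τ * A3 ℂ (qe τ)) := funext E4_q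
  rw [h1]
  exact ((K_deriv (A3_an ℂ) hτ).const_mul 240).const_add 1

theorem E6_deriv {τ : ℂ} (hτ : 0 < τ.im) : HasDerivAt E6
    (-(504 * ((A5 ℂ (qe τ) + qe τ * deriv (A5 ℂ) (qe τ)) * (2 * (Real.pi : ℂ) * Complex.I * qe τ)))) τ := by
  have h1 : E6 = fun τ => 1 - 504 * (qe τ * A5 ℂ (qe τ)) := funext E6_q
  rw [h1]
  exact ((K_deriv (A5_an ℂ) hτ).const_mul 504).const_sub 1

theorem F4_comp (z : ℍ) : F4 ∘ ofComplex =ᶠ[𝓝 (z : ℂ)] E4 := by
  filter_upwards [(isOpen_lt continuous_const Complex.continuous_im).mem_nhds z.im_pos] with t ht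
  have ht' : 0 < t.im := ht
  have h1 := E4_eq ⟨t, ht'⟩
  show F4 (ofComplex t) = E4 t
  rw [ofComplex_apply_of_im_pos ht']
  exact h1.symm

theorem F6_comp (z : ℍ) : F6 ∘ ofComplex =ᶠ[𝓝 (z : ℂ)] E6 := by
  filter_upwards [(isOpen_lt continuous_const Complex.continuous_im).mem_nhds z.im_pos] with t ht
  have ht' : 0 < t.im := ht
  have h1 := E6_eq ⟨t, ht'⟩
  show F6 (ofComplex t) = E6 t
  rw [ofComplex_apply_of_im_pos ht']
  exact h1.symm

theorem DF4_eq (z : ℍ) : D F4 z = (2 * Real.pi * Complex.I)⁻¹ * deriv E4 z := by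
  unfold Derivative.normalizedDerivOfComplex
  rw [(F4_comp z).deriv_eq]

theorem DF6_eq (z : ℍ) : D F6 z = (2 * Real.pi * Complex.I)⁻¹ * deriv E6 z := by
  unfold Derivative.normalizedDerivOfComplex
  rw [(F6_comp z).deriv_eq]

theorem aux_tendsto {A : ℂ → ℂ} (hA : AnalyticOnNhd ℂ A (Metric.ball 0 1)) :
    Tendsto (fun z : ℍ => (A (qe z) + qe z * deriv A (qe z)) * (2 * (Real.pi : ℂ) * Complex.I * qe z))
      atImInfty (𝓝 0) := by
  have h0 : (0 : ℂ) ∈ Metric.ball (0 : ℂ) 1 := by simp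
  have h1 : Tendsto (fun z : ℍ => A (qe z)) atImInfty (𝓝 (A 0)) :=
    ((hA 0 h0).continuousAt.tendsto).comp qe_tendsto
  have h2 : Tendsto (fun z : ℍ => deriv A (qe z)) atImInfty (𝓝 (deriv A 0)) :=
    ((hA 0 h0).deriv.continuousAt.tendsto).comp qe_tendsto
  have h3 := (h1.add (qe_tendsto.mul h2)).mul (qe_tendsto.const_mul (2 * (Real.pi : ℂ) * Complex.I))
  simpa using h3

theorem DF4_tendsto : Tendsto (D F4) atImInfty (𝓝 0) := by
  have h1 : D F4 = fun z : ℍ => (2 * Real.pi * Complex.I)⁻¹ * (240 * ((A3 ℂ (qe z) + qe z * deriv (A3 ℂ) (qe z)) *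
      (2 * (Real.pi : ℂ) * Complex.I * qe z))) := by
    ext z
    rw [DF4_eq, (E4_deriv z.im_pos).deriv]
  rw [h1]
  have := ((aux_tendsto (A3_an ℂ)).const_mul 240).const_mul (2 * Real.pi * Complex.I : ℂ)⁻¹
  simpa using this

theorem DF6_tendsto : Tendsto (D F6) atImInfty (𝓝 0) := by
  have h1 : D F6 = fun z : ℍ => (2 * Real.pi * Complex.I)⁻¹ * (-(504 * ((A5 ℂ (qe z) + qe z * deriv (A5 ℂ) (qe z)) *
      (2 * (Real.pi : ℂ) * Complex.I * qe z)))) := by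
    ext z
    rw [DF6_eq, (E6_deriv z.im_pos).deriv]
  rw [h1]
  have := (((aux_tendsto (A5_an ℂ)).const_mul 504).neg).const_mul (2 * Real.pi * Complex.I : ℂ)⁻¹
  simpa using this

theorem F4_tendsto : Tendsto F4 atImInfty (𝓝 1) := by
  have h1 : F4 = fun z : ℍ => 1 + 240 * (qe z * A3 ℂ (qe z)) := by
    ext z
    show E₄ z = _
    rw [← E4_eq, E4_q]
    rfl
  have h0 : (0 : ℂ) ∈ Metric.ball (0 : ℂ) 1 := by simp
  have h2 : Tendsto (fun z : ℍ => A3 ℂ (qe z)) atImInfty (𝓝 (A3 ℂ 0)) :=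
    ((A3_an ℂ 0 h0).continuousAt.tendsto).comp qe_tendsto
  rw [h1]
  have := ((qe_tendsto.mul h2).const_mul 240).const_add 1
  simpa using this

theorem F6_tendsto : Tendsto F6 atImInfty (𝓝 1) := by
  have h1 : F6 = fun z : ℍ => 1 - 504 * (qe z * A5 ℂ (qe z)) := by
    ext z
    show E₆ z = _
    rw [← E6_eq, E6_q]
    rfl
  have h0 : (0 : ℂ) ∈ Metric.ball (0 : ℂ) 1 := by simp
  have h2 : Tendsto (fun z : ℍ => A5 ℂ (qe z)) atImInfty (𝓝 (A5 ℂ 0)) :=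
    ((A5_an ℂ 0 h0).continuousAt.tendsto).comp qe_tendsto
  rw [h1]
  have := ((qe_tendsto.mul h2).const_mul 504).const_sub 1
  simpa using this

theorem W_zero : IsZeroAtImInfty W := by
  have h1 := ((F4_tendsto.const_mul 2).mul DF6_tendsto).sub ((F6_tendsto.const_mul 3).mul DF4_tendsto)
  have h2 : Tendsto (fun z => 2 * F4 z * D F6 z - 3 * F6 z * D F4 z) atImInfty (𝓝 0) := by
    simpa using h1
  exact h2

/-- the bracket as a cusp form -/
noncomputable def Wc : CuspForm 𝒮ℒ 12 where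
  toFun := W
  slash_action_eq' A hA := by
    obtain ⟨A, rfl⟩ := hA
    exact W_slash A
  holo' := W_mdiff
  zero_at_cusps' hc := by
    rw [Subgroup.IsArithmetic.isCusp_iff_isCusp_SL2Z] at hc
    rw [OnePoint.isZeroAt_iff_forall_SL2Z hc]
    intro γ _
    rw [W_slash]
    exact W_zero

theorem W_disc : ∃ c : ℂ, ∀ z : ℍ, W z = c * discriminant z := by
  obtain ⟨c, hc⟩ := CuspForm.exists_smul_discriminant_of_weight_eq_twelve Wc
  refine ⟨c, fun z => ?_⟩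
  have := congrArg (fun f : CuspForm 𝒮ℒ 12 => f z) hc
  exact this.symm

theorem E4_an {τ : ℂ} (hτ : 0 < τ.im) : AnalyticAt ℂ E4 τ := by
  have h1 : ∀ᶠ s in 𝓝 τ, DifferentiableAt ℂ E4 s := by
    filter_upwards [(isOpen_lt continuous_const Complex.continuous_im).mem_nhds hτ] with t ht
    exact (E4_deriv ht).differentiableAt
  exact Complex.analyticAt_iff_eventually_differentiableAt.mpr h1

theorem E6_an {τ : ℂ} (hτ : 0 < τ.im) : AnalyticAt ℂ E6 τ := by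
  have h1 : ∀ᶠ s in 𝓝 τ, DifferentiableAt ℂ E6 s := by
    filter_upwards [(isOpen_lt continuous_const Complex.continuous_im).mem_nhds hτ] with t ht
    exact (E6_deriv ht).differentiableAt
  exact Complex.analyticAt_iff_eventually_differentiableAt.mpr h1

theorem jj_deriv_eq {τ : ℂ} (hτ : 0 < τ.im) : deriv jj τ =
    1728 * (E4 τ ^ 2 * E6 τ * (2 * E4 τ * deriv E6 τ - 3 * E6 τ * deriv E4 τ)) / (E4 τ ^ 3 - E6 τ ^ 2) ^ 2 := by
  have h4 : HasDerivAt E4 (deriv E4 τ) τ := (E4_an hτ).differentiableAt.hasDerivAt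
  have h6 : HasDerivAt E6 (deriv E6 τ) τ := (E6_an hτ).differentiableAt.hasDerivAt
  have h0 : E4 τ ^ 3 - E6 τ ^ 2 ≠ 0 := disc_ne ⟨τ, hτ⟩
  have h1 := ((h4.pow 3).const_mul 1728).div ((h4.pow 3).sub (h6.pow 2)) h0
  have h2 : jj = (fun τ => 1728 * (E4 ^ 3) τ) / (E4 ^ 3 - E6 ^ 2) := rfl
  rw [h2, h1.deriv]
  simp only [Pi.pow_apply, Pi.sub_apply]
  congr 1
  push_cast
  ring

/-- **The derivative of `j`.** -/
theorem jd_formula : ∃ c : ℂ, c ≠ 0 ∧ (∀ τ : ℂ, 0 < τ.im →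
      deriv jj τ = c * (E4 τ ^ 2 * E6 τ) / (E4 τ ^ 3 - E6 τ ^ 2)) ∧
      ∀ τ : ℂ, 0 < τ.im → 1728 * (2 * E4 τ * deriv E6 τ - 3 * E6 τ * deriv E4 τ) = c * (E4 τ ^ 3 - E6 τ ^ 2) := by
  obtain ⟨c, hc⟩ := W_disc
  have hpi : (2 * Real.pi * Complex.I : ℂ) ≠ 0 := by
    have : (Real.pi : ℂ) ≠ 0 := by exact_mod_cast Real.pi_ne_zero
    simp [this]
  have key : ∀ τ : ℂ, 0 < τ.im →
      1728 * (2 * E4 τ * deriv E6 τ - 3 * E6 τ * deriv E4 τ) = (2 * Real.pi * Complex.I * c) * (E4 τ ^ 3 - E6 τ ^ 2) := by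
    intro τ hτ
    have h1 := hc ⟨τ, hτ⟩
    have h2 := discriminant_eq_E₄_cube_sub_E₆_sq ⟨τ, hτ⟩
    have h4 : E4 τ = E₄ ⟨τ, hτ⟩ := E4_eq ⟨τ, hτ⟩
    have h6 : E6 τ = E₆ ⟨τ, hτ⟩ := E6_eq ⟨τ, hτ⟩
    have h7 : W ⟨τ, hτ⟩ = 2 * E4 τ * ((2 * Real.pi * Complex.I)⁻¹ * deriv E6 τ) -
        3 * E6 τ * ((2 * Real.pi * Complex.I)⁻¹ * deriv E4 τ) := by
      rw [h4, h6]
      show 2 * F4 _ * D F6 _ - 3 * F6 _ * D F4 _ = _
      rw [DF4_eq, DF6_eq]
      rfl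
    rw [h7, h2, ← h4, ← h6] at h1
    have h8 := congrArg (fun x => 2 * Real.pi * Complex.I * x) h1
    have h9 : 2 * Real.pi * Complex.I * (2 * E4 τ * ((2 * Real.pi * Complex.I)⁻¹ * deriv E6 τ) -
        3 * E6 τ * ((2 * Real.pi * Complex.I)⁻¹ * deriv E4 τ)) =
        2 * E4 τ * deriv E6 τ - 3 * E6 τ * deriv E4 τ := by
      field_simp
    rw [h9] at h8
    rw [h8]
    ring
  have hform : ∀ τ : ℂ, 0 < τ.im →
      deriv jj τ = (2 * Real.pi * Complex.I * c) * (E4 τ ^ 2 * E6 τ) / (E4 τ ^ 3 - E6 τ ^ 2) := by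
    intro τ hτ
    have h0 : E4 τ ^ 3 - E6 τ ^ 2 ≠ 0 := disc_ne ⟨τ, hτ⟩
    rw [jj_deriv_eq hτ, div_eq_div_iff (pow_ne_zero 2 h0) h0]
    linear_combination (E4 τ ^ 2 * E6 τ) * (E4 τ ^ 3 - E6 τ ^ 2) * key τ hτ
  refine ⟨2 * Real.pi * Complex.I * c, ?_, hform, key⟩
  intro hc0
  have hz : Set.EqOn (deriv jj) 0 {τ : ℂ | 0 < τ.im} := by
    intro τ hτ
    rw [hform τ hτ, hc0]
    simp
  have hopen : IsOpen {τ : ℂ | 0 < τ.im} := isOpen_lt continuous_const Complex.continuous_im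
  have hconn : IsPreconnected {τ : ℂ | 0 < τ.im} :=
    (convex_halfSpace_im_gt 0).isPreconnected
  obtain ⟨y0, hy0, hlog⟩ := g0_log
  have hI : ∀ y : ℝ, 0 < y → 0 < (Complex.I * (y : ℂ)).im := fun y hy => by simpa using hy
  have h1 := hopen.is_const_of_deriv_eq_zero hconn
    (fun τ hτ => (jj_an τ hτ).differentiableAt.differentiableWithinAt) hz
    (x := Complex.I * (y0 : ℂ)) (y := Complex.I * ((y0 + 1 : ℝ) : ℂ)) (hI _ hy0) (hI _ (by linarith))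
  rw [jj_I, jj_I] at h1
  have h2 : g0 y0 = g0 (y0 + 1) := by exact_mod_cast h1
  have h3 := (hlog y0 le_rfl).2
  have h4 := (hlog (y0 + 1) (by linarith)).2
  rw [← h2] at h4
  rw [abs_le] at h3 h4
  have := Real.pi_gt_three
  linarith [h3.1, h3.2, h4.1, h4.2]

theorem jd_zero {τ : ℂ} (hτ : 0 < τ.im) (h : deriv jj τ = 0) : E4 τ = 0 ∨ E6 τ = 0 := by
  obtain ⟨c, hc, h1, _⟩ := jd_formula
  have h0 : E4 τ ^ 3 - E6 τ ^ 2 ≠ 0 := disc_ne ⟨τ, hτ⟩
  rw [h1 τ hτ, div_eq_zero_iff] at h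
  rcases h with h | h
  · rcases mul_eq_zero.mp h with h | h
    · exact absurd h hc
    · rcases mul_eq_zero.mp h with h | h
      · exact Or.inl (pow_eq_zero_iff (by norm_num) |>.mp h)
      · exact Or.inr h
  · exact absurd h h0

end Pool.Agent.Q280.MD
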