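import Pool.Agent.H73.G.R8.Y577.LU.L1
import Pool.Agent.H73.G.RB.Q280.MD.JA
import Pool.Agent.H73.G.RB.Q280.MD.JB

/-!
# The zeros of the Eisenstein series of weights four and six are CM points
-/

set_option autoImplicit false

open UpperHalfPlane ModularForm EisensteinSeries

namespace Pool.Agent.Q280.MD

open Pool.Agent.TH21.MS (jj jj_an E4 E6 E4_eq E6_eq disc_ne)
open Pool.Agent.Q280.MS (CM)

/-- the lattice `Ω (ℤ + ℤ ω)` -/
noncomputable def mkL (ω Ω : ℂ) (hω : 0 < ω.im) (hΩ : Ω ≠ 0) : PeriodPair where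
  ω₁ := Ω
  ω₂ := Ω * ω
  indep := by
    rw [LinearIndependent.pair_iff]
    intro s t h
    have h1 : Ω * ((s : ℂ) + t * ω) = 0 := by
      simp only [Complex.real_smul] at h
      linear_combination h
    have h2 := (mul_eq_zero.1 h1).resolve_left hΩ
    have h3 := congrArg Complex.im h2
    simp at h3
    have ht : t = 0 := h3.resolve_right hω.ne'
    refine ⟨?_, ht⟩
    rw [ht] at h2
    simpa using h2

/-- the elements of the lattice -/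
noncomputable def latV (ω Ω : ℂ) (hω : 0 < ω.im) (hΩ : Ω ≠ 0) :
    (Fin 2 → ℤ) ≃ (mkL ω Ω hω hΩ).lattice :=
  Equiv.ofBijective (fun v => ⟨Ω * (v 0 * ω + v 1), PeriodPair.mem_lattice.2 ⟨v 1, v 0, by
    show (v 1 : ℂ) * Ω + v 0 * (Ω * ω) = _
    ring⟩⟩) ⟨by
    intro v w h
    have h1 : Ω * ((v 0 : ℂ) * ω + v 1) = Ω * (w 0 * ω + w 1) := congrArg Subtype.val h
    have h2 := mul_left_cancel₀ hΩ h1
    have h3 := congrArg Complex.im h2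
    simp at h3
    have h4 : v 0 = w 0 := by
      rcases h3 with h3 | h3
      · exact_mod_cast h3
      · exact absurd h3 hω.ne'
    have h5 : v 1 = w 1 := by
      rw [h4] at h2
      have := add_left_cancel h2
      exact_mod_cast this
    funext i
    fin_cases i
    · exact h4
    · exact h5, by
    intro l
    obtain ⟨m, n, h⟩ := PeriodPair.mem_lattice.1 l.2
    refine ⟨![n, m], Subtype.ext ?_⟩
    rw [← h]
    show Ω * ((n : ℂ) * ω + m) = (m : ℂ) * Ω + n * (Ω * ω)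
    ring⟩

lemma G_eq {ω Ω : ℂ} (hω : 0 < ω.im) (hΩ : Ω ≠ 0) {k : ℕ} (hk : 3 ≤ k) :
    (mkL ω Ω hω hΩ).G k = (Ω ^ k)⁻¹ * (2 * riemannZeta k * E hk ⟨ω, hω⟩) := by
  have h1 := tsum_eisSummand_eq_riemannZeta_mul_eisensteinSeries hk (⟨ω, hω⟩ : ℍ)
  have h2 : E hk (⟨ω, hω⟩ : ℍ) = (1 / 2 : ℂ) * eisensteinSeries (N := 1) 0 k ⟨ω, hω⟩ := rfl
  have h3 : 2 * riemannZeta k * E hk (⟨ω, hω⟩ : ℍ) =
      ∑' v : Fin 2 → ℤ, eisSummand k v (⟨ω, hω⟩ : ℍ) := by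
    rw [h1, h2]
    ring
  rw [h3, ← tsum_mul_left]
  unfold PeriodPair.G
  rw [← (latV ω Ω hω hΩ).tsum_eq]
  refine tsum_congr fun v => ?_
  have h4 : (((latV ω Ω hω hΩ) v : (mkL ω Ω hω hΩ).lattice) : ℂ) = Ω * (v 0 * ω + v 1) := rfl
  rw [h4, mul_pow, mul_inv]
  congr 1
  unfold eisSummand
  rw [zpow_neg, zpow_natCast]

/-- a lattice with a non-integral unit multiplication -/
theorem cm_of_lattice {ω Ω : ℂ} (hω : 0 < ω.im) (hΩ : Ω ≠ 0) (him : Ω.im ≠ 0)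
    (h : (mkL ω Ω hω hΩ).lattice = (mkL ω 1 hω one_ne_zero).lattice) : CM ω := by
  have h1 : Ω ∈ (mkL ω 1 hω one_ne_zero).lattice := by
    rw [← h]
    exact PeriodPair.mem_lattice.2 ⟨1, 0, by simp [mkL]⟩
  have h2 : Ω * ω ∈ (mkL ω 1 hω one_ne_zero).lattice := by
    rw [← h]
    exact PeriodPair.mem_lattice.2 ⟨0, 1, by simp [mkL]⟩
  obtain ⟨m, n, h3⟩ := PeriodPair.mem_lattice.1 h1
  obtain ⟨m', n', h4⟩ := PeriodPair.mem_lattice.1 h2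
  have h3' : (m : ℂ) + n * ω = Ω := by
    have : (m : ℂ) * 1 + n * (1 * ω) = Ω := h3
    rw [← this]; ring
  have h4' : (m' : ℂ) + n' * ω = Ω * ω := by
    have : (m' : ℂ) * 1 + n' * (1 * ω) = Ω * ω := h4
    rw [← this]; ring
  refine ⟨n, m - n', -m', Or.inl ?_, ?_⟩
  · rintro rfl
    apply him
    rw [← h3']
    simp
  · push_cast
    rw [← h3'] at h4'
    linear_combination -h4'

theorem g2_eq {ω Ω : ℂ} (hω : 0 < ω.im) (hΩ : Ω ≠ 0) : (mkL ω Ω hω hΩ).g₂ =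
      (Ω ^ 4)⁻¹ * (120 * riemannZeta (4 : ℕ) * E₄ ⟨ω, hω⟩) := by
  unfold PeriodPair.g₂
  rw [G_eq hω hΩ (k := 4) (by norm_num)]
  ring

theorem g3_eq {ω Ω : ℂ} (hω : 0 < ω.im) (hΩ : Ω ≠ 0) : (mkL ω Ω hω hΩ).g₃ =
      (Ω ^ 6)⁻¹ * (280 * riemannZeta (6 : ℕ) * E₆ ⟨ω, hω⟩) := by
  unfold PeriodPair.g₃
  rw [G_eq hω hΩ (k := 6) (by norm_num)]
  ring

theorem cm_of_E6 {τ : ℂ} (hτ : 0 < τ.im) (h : E6 τ = 0) : CM τ := by
  have h6 : E₆ ⟨τ, hτ⟩ = 0 := by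
    have := E6_eq ⟨τ, hτ⟩
    exact this.symm.trans h
  refine cm_of_lattice hτ (Ω := Complex.I) Complex.I_ne_zero (by simp) ?_
  apply Pool.Agent.Y577.LU.lat_unique
  · rw [g2_eq, g2_eq, Complex.I_pow_four]
    simp
  · rw [g3_eq, g3_eq, h6]
    simp

theorem cm_of_E4 {τ : ℂ} (hτ : 0 < τ.im) (h : E4 τ = 0) : CM τ := by
  have h4 : E₄ ⟨τ, hτ⟩ = 0 := by
    have := E4_eq ⟨τ, hτ⟩
    exact this.symm.trans h
  obtain ⟨ρ, hρ⟩ : ∃ ρ : ℂ, ρ = ⟨-1 / 2, Real.sqrt 3 / 2⟩ := ⟨_, rfl⟩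
  have hs : Real.sqrt 3 * Real.sqrt 3 = 3 := Real.mul_self_sqrt (by norm_num)
  have h1 : ρ ^ 2 + ρ + 1 = 0 := by
    rw [hρ]
    apply Complex.ext
    · simp [pow_two]
      nlinarith
    · simp [pow_two]
      ring
  have h3 : ρ ^ 6 = 1 := by linear_combination (ρ ^ 4 - ρ ^ 3 + ρ - 1) * h1
  have him : ρ.im ≠ 0 := by
    rw [hρ]
    simp
  have h0 : ρ ≠ 0 := by
    rintro h
    apply him
    rw [h]; simp
  refine cm_of_lattice hτ (Ω := ρ) h0 him ?_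
  apply Pool.Agent.Y577.LU.lat_unique
  · rw [g2_eq, g2_eq, h4]
    simp
  · rw [g3_eq, g3_eq, h3]
    simp

theorem cm_of_jd {τ : ℂ} (hτ : 0 < τ.im) (h : deriv jj τ = 0) : CM τ := by
  rcases jd_zero hτ h with h | h
  · exact cm_of_E4 hτ h
  · exact cm_of_E6 hτ h

end Pool.Agent.Q280.MD
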